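import Pool.Agent.Lib_MP_a20b56_pl.LowerPt

/-!
# Power lower bounds for weak epsilon-nets (MP_a20b56_co): counting
-/

namespace MPa20b56.Lb

open scoped BigOperators Classical

noncomputable section

/-- `S` is a weak `ε`-net for the finite set `P` in the real vector space `W`. -/
def IsNet {W : Type} [AddCommGroup W] [Module ℝ W] (P : Finset W) (ε : ℝ) (S : Finset W) : Prop :=
  ∀ G : Finset W, G ⊆ P → ε * (P.card : ℝ) ≤ (G.card : ℝ) →
    ∃ s ∈ S, s ∈ convexHull ℝ (G : Set W)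

/-- Transfer of nets along an injective linear map with a linear left inverse. -/
theorem transfer {W : Type} [AddCommGroup W] [Module ℝ W] {d : ℕ} (f : W →ₗ[ℝ] (Fin d → ℝ))
    (g : (Fin d → ℝ) →ₗ[ℝ] W) (hgf : ∀ x, g (f x) = x) (hf : Function.Injective f)
    (P : Finset W) (ε : ℝ)
    (S : Finset (Fin d → ℝ)) (hS : IsPointNet d (P.map ⟨f, hf⟩) ε S) :
    ∃ S' : Finset W, S'.card ≤ S.card ∧ IsNet P ε S' := by
  refine ⟨S.image g, Finset.card_image_le, ?_⟩
  intro G hG hc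
  obtain ⟨s, hs, hs'⟩ := hS (G.map ⟨f, hf⟩) (Finset.map_subset_map.2 hG) (by
    rw [Finset.card_map, Finset.card_map]
    exact hc)
  refine ⟨g s, Finset.mem_image_of_mem _ hs, ?_⟩
  rw [Finset.coe_map, Function.Embedding.coeFn_mk, ← f.image_convexHull] at hs'
  obtain ⟨x, hx, rfl⟩ := hs'
  rw [hgf]
  exact hx

/-- The counting lemma: sets `P v` of `k` points, such that a point `s` in the hull of a part `G`
of `P v` forces `G` to meet a set `U s v`, and for every `s` the sizes of the `U s v` have sum at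
most `E`; then nets which serve all halves of all `P v` have at least `|𝒱| k / (2E)` points. -/
theorem count {W : Type} [AddCommGroup W] [Module ℝ W] {ι : Type} (P : Finset W)
    (T : Finset ι) (Pt : ι → Finset W) (hPt : ∀ v ∈ T, Pt v ⊆ P) (k : ℕ)
    (hk : ∀ v ∈ T, (Pt v).card = k) (E : ℕ) (U : W → ι → Finset W)
    (h1 : ∀ s, ∀ v ∈ T, ∀ G : Finset W, G ⊆ Pt v → s ∈ convexHull ℝ (G : Set W) →
      ∃ q ∈ G, q ∈ U s v)
    (h2 : ∀ s, (∑ v ∈ T.filter (fun v => s ∈ convexHull ℝ (Pt v : Set W)), (U s v).card) ≤ E)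
    (ε : ℝ) (hε : 2 * (ε * (P.card : ℝ)) ≤ (k : ℝ)) (S : Finset W) (hS : IsNet P ε S) :
    T.card * k ≤ 2 * (S.card * E) := by
  -- for every `v` the sets `U s v` cover at least half of `Pt v`
  have key : ∀ v ∈ T, k ≤ 2 * ∑ s ∈ S.filter (fun s => s ∈ convexHull ℝ (Pt v : Set W)),
      (U s v).card := by
    intro v hv
    by_contra hlt
    push Not at hlt
    set Sv := S.filter (fun s => s ∈ convexHull ℝ (Pt v : Set W)) with hSv
    set B := Sv.biUnion (fun s => U s v) with hB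
    have hBc : B.card ≤ ∑ s ∈ Sv, (U s v).card := Finset.card_biUnion_le
    set G := (Pt v) \ B with hG
    have hGc : (Pt v).card ≤ G.card + B.card := by
      rw [hG]
      exact Finset.card_le_card_sdiff_add_card
    rw [hk v hv] at hGc
    have hG2 : k ≤ 2 * G.card := by omega
    obtain ⟨s, hs, hsG⟩ := hS G (Finset.sdiff_subset.trans (hPt v hv)) (by
      have : (k : ℝ) ≤ 2 * (G.card : ℝ) := by exact_mod_cast hG2
      linarith)
    obtain ⟨q, hq, hqU⟩ := h1 s v hv G Finset.sdiff_subset hsG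
    have hsv : s ∈ Sv := by
      rw [hSv, Finset.mem_filter]
      exact ⟨hs, convexHull_mono (by exact_mod_cast Finset.sdiff_subset) hsG⟩
    have : q ∈ B := Finset.mem_biUnion.2 ⟨s, hsv, hqU⟩
    exact (Finset.mem_sdiff.1 hq).2 this
  have hsum : T.card * k ≤ ∑ v ∈ T, 2 * ∑ s ∈ S.filter
      (fun s => s ∈ convexHull ℝ (Pt v : Set W)), (U s v).card := by
    rw [← smul_eq_mul]
    exact Finset.card_nsmul_le_sum _ _ _ key
  refine hsum.trans ?_
  rw [← Finset.mul_sum]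
  apply Nat.mul_le_mul_left
  have hswap : ∑ v ∈ T, ∑ s ∈ S.filter (fun s => s ∈ convexHull ℝ (Pt v : Set W)), (U s v).card
      = ∑ s ∈ S, ∑ v ∈ T.filter (fun v => s ∈ convexHull ℝ (Pt v : Set W)), (U s v).card := by
    simp only [Finset.sum_filter]
    exact Finset.sum_comm
  rw [hswap]
  calc _ ≤ ∑ _s ∈ S, E := Finset.sum_le_sum fun s _ => h2 s
    _ = S.card * E := by rw [Finset.sum_const, smul_eq_mul]

/-- Numerical conclusion: if for every `N ≥ 1` some point set needs at least `c N^m` points for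
`ε = 1 / (b N^2)` then every admissible exponent is at least `m / 2`. -/
theorem exponent_ge {d : ℕ} {β : ℝ} (hβ : PointAdmissible d β) {m : ℕ} {b c : ℝ} (hb : 1 ≤ b)
    (hc : 0 < c)
    (h : ∀ N : ℕ, 1 ≤ N → ∃ P : Finset (Fin d → ℝ), P.Nonempty ∧ ∀ S : Finset (Fin d → ℝ),
      IsPointNet d P (1 / (b * (N : ℝ) ^ 2)) S → c * (N : ℝ) ^ m ≤ (S.card : ℝ)) :
    (m : ℝ) / 2 ≤ β := by
  obtain ⟨hβ0, C, hC⟩ := hβ
  by_contra hlt
  push Not at hlt
  -- `c N^m ≤ C (b N^2)^β` for all `N`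
  have hN : ∀ N : ℕ, 1 ≤ N → c * (N : ℝ) ^ m ≤ C * (b * (N : ℝ) ^ 2) ^ β := by
    intro N hN
    have hN1 : (1 : ℝ) ≤ N := by exact_mod_cast hN
    have hbN : 1 ≤ b * (N : ℝ) ^ 2 := by nlinarith [one_le_pow₀ (n := 2) hN1]
    obtain ⟨P, hP, hS⟩ := h N hN
    obtain ⟨S, hSc, hSn⟩ := hC (1 / (b * (N : ℝ) ^ 2)) (by positivity)
      (by rw [div_le_one (by positivity)]; exact hbN) P hP
    refine (hS S hSn).trans (hSc.trans (le_of_eq ?_))
    rw [one_div, Real.inv_rpow (by positivity), Real.rpow_neg (by positivity), inv_inv]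
  have hlim : Filter.Tendsto (fun N : ℕ => (N : ℝ) ^ ((m : ℝ) - 2 * β)) Filter.atTop
      Filter.atTop :=
    (tendsto_rpow_atTop (by linarith)).comp tendsto_natCast_atTop_atTop
  obtain ⟨N, hN1, hN2⟩ := ((hlim.eventually_gt_atTop (C * b ^ β / c)).and
    (Filter.eventually_ge_atTop 1)).exists
  have h3 := hN N hN2
  have hNpos : (0 : ℝ) < N := by exact_mod_cast hN2
  have h4 : (b * (N : ℝ) ^ 2) ^ β = b ^ β * (N : ℝ) ^ (2 * β) := by
    rw [Real.mul_rpow (by positivity) (by positivity), ← Real.rpow_natCast (N : ℝ) 2,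
      ← Real.rpow_mul hNpos.le]
    norm_num
  have h5 : (N : ℝ) ^ m = (N : ℝ) ^ ((m : ℝ) - 2 * β) * (N : ℝ) ^ (2 * β) := by
    rw [← Real.rpow_natCast (N : ℝ) m, ← Real.rpow_add hNpos]
    congr 1; ring
  rw [h4, h5] at h3
  have h6 : 0 < (N : ℝ) ^ (2 * β) := Real.rpow_pos_of_pos hNpos _
  have h7 : c * (N : ℝ) ^ ((m : ℝ) - 2 * β) ≤ C * b ^ β := by
    have : c * (N : ℝ) ^ ((m : ℝ) - 2 * β) * (N : ℝ) ^ (2 * β) ≤
        (C * b ^ β) * (N : ℝ) ^ (2 * β) := by linarith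
    exact le_of_mul_le_mul_right this h6
  have h8 : (N : ℝ) ^ ((m : ℝ) - 2 * β) ≤ C * b ^ β / c := by
    rw [le_div_iff₀ hc]; linarith
  linarith

end

end MPa20b56.Lb
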