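import Pool.Agent.Lib_MP_a20b56_lb.Core

/-!
# Power lower bounds for weak epsilon-nets (MP_a20b56_co): all dimensions

The points are `(a, y, a aᵀ, y a)` for `a ∈ {0,…,N-1}^n`, `0 ≤ y < (n+1) N²`.  Integer hyperplanes
`y = X·a + Z` give flats of the big space.
-/

namespace MPa20b56.Lb

open scoped BigOperators Classical

noncomputable section

/-- coordinates: `a`, `y`, `a aᵀ`, `y a` -/
abbrev Ix (n : ℕ) : Type := (Fin n) ⊕ (Unit ⊕ (Sym2 (Fin n) ⊕ Fin n))

/-- the point belonging to `(a, y)` -/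
def gp {n : ℕ} (a : Fin n → ℕ) (y : ℕ) : Ix n → ℝ :=
  Sum.elim (fun i => (a i : ℝ)) (Sum.elim (fun _ => (y : ℝ))
    (Sum.elim (Sym2.lift ⟨fun i j => (a i : ℝ) * (a j : ℝ), fun _ _ => mul_comm _ _⟩)
      (fun i => (y : ℝ) * (a i : ℝ))))

theorem gp_a {n : ℕ} (a : Fin n → ℕ) (y : ℕ) (i : Fin n) : gp a y (Sum.inl i) = (a i : ℝ) := rfl
theorem gp_y {n : ℕ} (a : Fin n → ℕ) (y : ℕ) : gp a y (Sum.inr (Sum.inl ())) = (y : ℝ) := rfl
theorem gp_aa {n : ℕ} (a : Fin n → ℕ) (y : ℕ) (i j : Fin n) :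
    gp a y (Sum.inr (Sum.inr (Sum.inl s(i, j)))) = (a i : ℝ) * (a j : ℝ) := rfl
theorem gp_ya {n : ℕ} (a : Fin n → ℕ) (y : ℕ) (i : Fin n) :
    gp a y (Sum.inr (Sum.inr (Sum.inr i))) = (y : ℝ) * (a i : ℝ) := rfl

/-- the value of the hyperplane `v` -/
def hy {n : ℕ} (v : (Fin n → ℕ) × ℕ) (a : Fin n → ℕ) : ℕ := ∑ i, v.1 i * a i + v.2

/-- the grid -/
def Bx (n N : ℕ) : Finset (Fin n → ℕ) := Fintype.piFinset fun _ => Finset.range N

/-- the points of the hyperplane `v` -/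
def Hyp {n : ℕ} (N : ℕ) (v : (Fin n → ℕ) × ℕ) : Finset (Ix n → ℝ) :=
  (Bx n N).image fun a => gp a (hy v a)

/-- all points -/
def GPts (n N : ℕ) : Finset (Ix n → ℝ) :=
  (Bx n N ×ˢ Finset.range ((n + 1) * N ^ 2)).image fun p => gp p.1 p.2

/-- all hyperplanes -/
def Hs (n N : ℕ) : Finset ((Fin n → ℕ) × ℕ) := Bx n N ×ˢ Finset.range (N ^ 2)

theorem mem_Bx {n N : ℕ} {a : Fin n → ℕ} : a ∈ Bx n N ↔ ∀ i, a i < N := by
  simp [Bx]

theorem Bx_card (n N : ℕ) : (Bx n N).card = N ^ n := by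
  simp [Bx]

theorem Hyp_card {n : ℕ} (N : ℕ) (v : (Fin n → ℕ) × ℕ) : (Hyp N v).card = N ^ n := by
  rw [Hyp, Finset.card_image_of_injective, Bx_card]
  intro a b hab
  funext i
  have := congrFun hab (Sum.inl i)
  simp only [gp_a] at this
  exact_mod_cast this

theorem GPts_card (n N : ℕ) : (GPts n N).card ≤ N ^ n * ((n + 1) * N ^ 2) := by
  refine Finset.card_image_le.trans ?_
  rw [Finset.card_product, Bx_card, Finset.card_range]

theorem Hs_card (n N : ℕ) : (Hs n N).card = N ^ n * N ^ 2 := by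
  rw [Hs, Finset.card_product, Bx_card, Finset.card_range]

theorem Hyp_sub {n N : ℕ} {v : (Fin n → ℕ) × ℕ} (hv : v ∈ Hs n N) : Hyp N v ⊆ GPts n N := by
  intro q hq
  obtain ⟨a, ha, rfl⟩ := Finset.mem_image.1 hq
  rw [Hs, Finset.mem_product, mem_Bx, Finset.mem_range] at hv
  refine Finset.mem_image.2 ⟨(a, hy v a), ?_, rfl⟩
  rw [Finset.mem_product, Finset.mem_range]
  refine ⟨ha, ?_⟩
  rw [mem_Bx] at ha
  have h1 : ∑ i, v.1 i * a i ≤ ∑ _i : Fin n, N * N :=
    Finset.sum_le_sum fun i _ => Nat.mul_le_mul (hv.1 i).le (ha i).le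
  rw [Finset.sum_const, Finset.card_univ, Fintype.card_fin, smul_eq_mul] at h1
  have h2 := hv.2
  simp only [hy]
  nlinarith

/-- the affine function on the big space belonging to `v` -/
def af {n : ℕ} (v : (Fin n → ℕ) × ℕ) : (Ix n → ℝ) → ℝ := fun q =>
  ∑ i, (v.1 i : ℝ) * q (Sum.inl i) + (v.2 : ℝ)

theorem af_gp {n : ℕ} (v : (Fin n → ℕ) × ℕ) (a : Fin n → ℕ) (y : ℕ) :
    af v (gp a y) = (hy v a : ℝ) := by
  simp only [af, gp_a, hy]
  push_cast
  ring

/-- a linear functional on functions which kills `1` and the coordinates `a_i` kills `af v` -/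
theorem af_zero {n : ℕ} (Φ : ((Ix n → ℝ) → ℝ) →ₗ[ℝ] ℝ) (h1 : Φ 1 = 0)
    (h2 : ∀ i : Fin n, Φ (fun q => q (Sum.inl i)) = 0) (v : (Fin n → ℕ) × ℕ) : Φ (af v) = 0 := by
  have : af v = ∑ i, (v.1 i : ℝ) • (fun q : Ix n → ℝ => q (Sum.inl i)) +
      (v.2 : ℝ) • (1 : (Ix n → ℝ) → ℝ) := by
    funext q
    simp [af]
  rw [this, map_add, map_sum, map_smul, h1, smul_zero, add_zero]
  apply Finset.sum_eq_zero
  intro i _
  rw [map_smul, h2, smul_zero]

/-- expectation -/
def Ex {W : Type} (G : Finset W) (w : W → ℝ) : (W → ℝ) →ₗ[ℝ] ℝ where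
  toFun f := ∑ q ∈ G, w q * f q
  map_add' f g := by
    simp only [Pi.add_apply, mul_add, Finset.sum_add_distrib]
  map_smul' c f := by
    simp only [Pi.smul_apply, smul_eq_mul, RingHom.id_apply, Finset.mul_sum]
    exact Finset.sum_congr rfl fun q _ => by ring

theorem Ex_apply {W : Type} (G : Finset W) (w : W → ℝ) (f : W → ℝ) :
    Ex G w f = ∑ q ∈ G, w q * f q := rfl

theorem Ex_congr {W : Type} {G : Finset W} {w f g : W → ℝ} (h : ∀ q ∈ G, f q = g q) :
    Ex G w f = Ex G w g := by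
  rw [Ex_apply, Ex_apply]
  exact Finset.sum_congr rfl fun q hq => by rw [h q hq]

/-- the moments of a convex combination -/
theorem Ex_coord {n : ℕ} {G : Finset (Ix n → ℝ)} {w : (Ix n → ℝ) → ℝ} {s : Ix n → ℝ}
    (hs : ∑ q ∈ G, w q • q = s) (κ : Ix n) : Ex G w (fun q => q κ) = s κ := by
  have := congrFun hs κ
  rw [Finset.sum_apply] at this
  simpa only [Pi.smul_apply, smul_eq_mul, Ex_apply] using this

/-- on a hyperplane the coordinates are determined by the `a_i` -/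
theorem Hyp_rel {n N : ℕ} {v : (Fin n → ℕ) × ℕ} {q : Ix n → ℝ} (hq : q ∈ Hyp N v) :
    q (Sum.inr (Sum.inl ())) = af v q ∧
    (∀ i j, q (Sum.inr (Sum.inr (Sum.inl s(i, j)))) = q (Sum.inl i) * q (Sum.inl j)) ∧
    (∀ i, q (Sum.inr (Sum.inr (Sum.inr i))) = af v q * q (Sum.inl i)) := by
  obtain ⟨a, _, rfl⟩ := Finset.mem_image.1 hq
  refine ⟨?_, fun i j => rfl, fun i => ?_⟩
  · rw [af_gp]; rfl
  · rw [af_gp]; rfl

/-- **Key.** If a point is in the hulls of `G ⊆ Hyp v` and `G' ⊆ Hyp v'` then the difference of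
the two affine functions has second moment zero. -/
theorem key {n N : ℕ} {v v' : (Fin n → ℕ) × ℕ} {G G' : Finset (Ix n → ℝ)} (hG : G ⊆ Hyp N v)
    (hG' : G' ⊆ Hyp N v') {w w' : (Ix n → ℝ) → ℝ} {s : Ix n → ℝ} (h1 : ∑ q ∈ G, w q = 1)
    (h1' : ∑ q ∈ G', w' q = 1) (hs : ∑ q ∈ G, w q • q = s) (hs' : ∑ q ∈ G', w' q • q = s) :
    ∑ q ∈ G, w q * (af v q - af v' q) ^ 2 = 0 := by
  -- `H f = E_w f - E_w' f` kills polynomials of degree at most two in `a`
  set H : ((Ix n → ℝ) → ℝ) →ₗ[ℝ] ℝ := Ex G w - Ex G' w' with hH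
  have H1 : H 1 = 0 := by
    simp only [hH, LinearMap.sub_apply, Ex_apply, Pi.one_apply, mul_one, h1, h1', sub_self]
  have Ha : ∀ i : Fin n, H (fun q => q (Sum.inl i)) = 0 := by
    intro i
    rw [hH, LinearMap.sub_apply, Ex_coord hs, Ex_coord hs', sub_self]
  have Haa : ∀ i j : Fin n, H (fun q => q (Sum.inl i) * q (Sum.inl j)) = 0 := by
    intro i j
    have e : Ex G w (fun q => q (Sum.inl i) * q (Sum.inl j)) =
        Ex G w (fun q => q (Sum.inr (Sum.inr (Sum.inl s(i, j))))) :=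
      Ex_congr fun q hq => ((Hyp_rel (hG hq)).2.1 i j).symm
    have e' : Ex G' w' (fun q => q (Sum.inl i) * q (Sum.inl j)) =
        Ex G' w' (fun q => q (Sum.inr (Sum.inr (Sum.inl s(i, j))))) :=
      Ex_congr fun q hq => ((Hyp_rel (hG' hq)).2.1 i j).symm
    rw [hH, LinearMap.sub_apply, e, e', Ex_coord hs, Ex_coord hs', sub_self]
  have Hma : ∀ (m : (Fin n → ℕ) × ℕ) (j : Fin n), H (af m * fun q => q (Sum.inl j)) = 0 := by
    intro m j
    have := af_zero (H.comp (LinearMap.mulRight ℝ (fun q : Ix n → ℝ => q (Sum.inl j)))) (by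
      simp only [LinearMap.comp_apply, LinearMap.mulRight_apply, one_mul]
      exact Ha j) (by
      intro i
      simp only [LinearMap.comp_apply, LinearMap.mulRight_apply]
      exact Haa i j) m
    simpa only [LinearMap.comp_apply, LinearMap.mulRight_apply] using this
  have Hm : ∀ m : (Fin n → ℕ) × ℕ, H (af m) = 0 := fun m => af_zero H H1 Ha m
  have Hmm : ∀ m m' : (Fin n → ℕ) × ℕ, H (af m * af m') = 0 := by
    intro m m'
    have := af_zero (H.comp (LinearMap.mulLeft ℝ (af m))) (by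
      simp only [LinearMap.comp_apply, LinearMap.mulLeft_apply, mul_one]
      exact Hm m) (by
      intro i
      simp only [LinearMap.comp_apply, LinearMap.mulLeft_apply]
      exact Hma m i) m'
    simpa only [LinearMap.comp_apply, LinearMap.mulLeft_apply] using this
  -- `K c = E_w (m c) - E_w' (m' c)` kills affine functions `c`
  set K : ((Ix n → ℝ) → ℝ) →ₗ[ℝ] ℝ := (Ex G w).comp (LinearMap.mulLeft ℝ (af v)) -
    (Ex G' w').comp (LinearMap.mulLeft ℝ (af v')) with hK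
  have K1 : K 1 = 0 := by
    have e : Ex G w (af v) = Ex G w (fun q => q (Sum.inr (Sum.inl ()))) :=
      Ex_congr fun q hq => ((Hyp_rel (hG hq)).1).symm
    have e' : Ex G' w' (af v') = Ex G' w' (fun q => q (Sum.inr (Sum.inl ()))) :=
      Ex_congr fun q hq => ((Hyp_rel (hG' hq)).1).symm
    simp only [hK, LinearMap.sub_apply, LinearMap.comp_apply, LinearMap.mulLeft_apply, mul_one]
    rw [e, e', Ex_coord hs, Ex_coord hs', sub_self]
  have Ka : ∀ i : Fin n, K (fun q => q (Sum.inl i)) = 0 := by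
    intro i
    have e : Ex G w (af v * fun q => q (Sum.inl i)) =
        Ex G w (fun q => q (Sum.inr (Sum.inr (Sum.inr i)))) :=
      Ex_congr fun q hq => ((Hyp_rel (hG hq)).2.2 i).symm
    have e' : Ex G' w' (af v' * fun q => q (Sum.inl i)) =
        Ex G' w' (fun q => q (Sum.inr (Sum.inr (Sum.inr i)))) :=
      Ex_congr fun q hq => ((Hyp_rel (hG' hq)).2.2 i).symm
    simp only [hK, LinearMap.sub_apply, LinearMap.comp_apply, LinearMap.mulLeft_apply]
    rw [e, e', Ex_coord hs, Ex_coord hs', sub_self]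
  have Km : ∀ m : (Fin n → ℕ) × ℕ, K (af m) = 0 := fun m => af_zero K K1 Ka m
  have k1 := Km v
  have k2 := Km v'
  have g1 := Hmm v' v
  have g2 := Hmm v' v'
  simp only [hK, LinearMap.sub_apply, LinearMap.comp_apply, LinearMap.mulLeft_apply] at k1 k2
  simp only [hH, LinearMap.sub_apply] at g1 g2
  have e1 : Ex G w (af v' * af v) = Ex G w (af v * af v') := by rw [mul_comm]
  have goal : Ex G w (af v * af v) - 2 * Ex G w (af v * af v') + Ex G w (af v' * af v') = 0 := by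
    linarith
  have : ∑ q ∈ G, w q * (af v q - af v' q) ^ 2 = Ex G w (af v * af v) -
      2 * Ex G w (af v * af v') + Ex G w (af v' * af v') := by
    simp only [Ex_apply, Pi.mul_apply, Finset.mul_sum, ← Finset.sum_sub_distrib,
      ← Finset.sum_add_distrib]
    exact Finset.sum_congr rfl fun q _ => by ring
  rw [this, goal]

/-- the points of `Hyp v` which are on all hyperplanes whose hull contains `s` -/
def UG (n N : ℕ) (s : Ix n → ℝ) (v : (Fin n → ℕ) × ℕ) : Finset (Ix n → ℝ) :=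
  (Hyp N v).filter fun q => ∀ v' ∈ Hs n N, s ∈ convexHull ℝ (Hyp N v' : Set (Ix n → ℝ)) →
    q ∈ Hyp N v'

theorem UG_meet {n N : ℕ} {s : Ix n → ℝ} {v : (Fin n → ℕ) × ℕ} {G : Finset (Ix n → ℝ)}
    (hG : G ⊆ Hyp N v) (hs : s ∈ convexHull ℝ (G : Set (Ix n → ℝ))) :
    ∃ q ∈ G, q ∈ UG n N s v := by
  rw [Finset.mem_convexHull'] at hs
  obtain ⟨w, hw0, hw1, hws⟩ := hs
  obtain ⟨q, hq, hwq⟩ : ∃ q ∈ G, w q ≠ 0 := by
    by_contra hne
    push Not at hne
    rw [Finset.sum_eq_zero hne] at hw1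
    exact zero_ne_one hw1
  refine ⟨q, hq, Finset.mem_filter.2 ⟨hG hq, fun v' _ hv' => ?_⟩⟩
  rw [Finset.mem_convexHull'] at hv'
  obtain ⟨w', hw0', hw1', hws'⟩ := hv'
  have hk := key hG (Finset.Subset.refl (Hyp N v')) hw1 hw1' hws hws'
  rw [Finset.sum_eq_zero_iff_of_nonneg (fun q hq => mul_nonneg (hw0 q hq) (sq_nonneg _))] at hk
  have h2 : af v q - af v' q = 0 := by
    rcases mul_eq_zero.1 (hk q hq) with h3 | h3
    · exact absurd h3 hwq
    · exact (pow_eq_zero_iff two_ne_zero).1 h3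
  obtain ⟨a, ha, rfl⟩ := Finset.mem_image.1 (hG hq)
  rw [af_gp, af_gp, sub_eq_zero] at h2
  have h3 : hy v a = hy v' a := by exact_mod_cast h2
  exact Finset.mem_image.2 ⟨a, ha, by rw [h3]⟩

/-- the integer vector of a point -/
def av {n : ℕ} (q : Ix n → ℝ) : Fin n → ℕ := fun i => ⌊q (Sum.inl i)⌋₊

theorem av_gp {n : ℕ} (a : Fin n → ℕ) (y : ℕ) : av (gp a y) = a := by
  funext i
  simp [av, gp_a]

theorem mem_Hyp' {n N : ℕ} {v : (Fin n → ℕ) × ℕ} {q : Ix n → ℝ} (hq : q ∈ Hyp N v) :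
    av q ∈ Bx n N ∧ q = gp (av q) (hy v (av q)) := by
  obtain ⟨a, ha, rfl⟩ := Finset.mem_image.1 hq
  rw [av_gp]
  exact ⟨ha, rfl⟩

theorem gp_y_inj {n : ℕ} {a : Fin n → ℕ} {y y' : ℕ} (h : gp a y = gp a y') : y = y' := by
  have := congrFun h (Sum.inr (Sum.inl ()))
  rw [gp_y, gp_y] at this
  exact_mod_cast this

theorem UG_sum (n N : ℕ) (s : Ix n → ℝ) :
    (∑ v ∈ (Hs n N).filter (fun v => s ∈ convexHull ℝ (Hyp N v : Set (Ix n → ℝ))),
      (UG n N s v).card) ≤ (2 * N) ^ n := by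
  rw [← Finset.card_sigma, ← Bx_card n (2 * N)]
  refine Finset.card_le_card_of_injOn (fun p => fun i => av p.2 i + p.1.1 i) ?_ ?_
  · rintro ⟨v, q⟩ hp
    rw [Finset.mem_coe, Finset.mem_sigma, Finset.mem_filter, Hs, Finset.mem_product, mem_Bx] at hp
    have hq : q ∈ Hyp N v := (Finset.mem_filter.1 hp.2).1
    have ha := mem_Bx.1 (mem_Hyp' hq).1
    rw [Finset.mem_coe, mem_Bx]
    intro i
    have h1 := ha i
    have h2 : v.1 i < N := hp.1.1.1 i
    simp only
    omega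
  · rintro ⟨v, q⟩ hp ⟨v', q'⟩ hp' heq
    rw [Finset.mem_coe, Finset.mem_sigma, Finset.mem_filter] at hp hp'
    have hq := Finset.mem_filter.1 hp.2
    have hq' := Finset.mem_filter.1 hp'.2
    have hqv : q ∈ Hyp N v := hq.1
    have hqv' : q ∈ Hyp N v' := hq.2 v' hp'.1.1 hp'.1.2
    have hq'v' : q' ∈ Hyp N v' := hq'.1
    have hq'v : q' ∈ Hyp N v := hq'.2 v hp.1.1 hp.1.2
    have e1 : hy v (av q) = hy v' (av q) := by
      have := (mem_Hyp' hqv).2.symm.trans (mem_Hyp' hqv').2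
      exact gp_y_inj this
    have e2 : hy v (av q') = hy v' (av q') := by
      have := (mem_Hyp' hq'v).2.symm.trans (mem_Hyp' hq'v').2
      exact gp_y_inj this
    have e3 : ∀ i, av q i + v.1 i = av q' i + v'.1 i := fun i => congrFun heq i
    -- `Σ (a_i - a'_i)² = 0`
    have e4 : ∑ i, ((av q i : ℤ) - av q' i) ^ 2 = 0 := by
      have g1 : (∑ i, (v.1 i : ℤ) * av q i) + v.2 = (∑ i, (v'.1 i : ℤ) * av q i) + v'.2 := by
        have := e1
        unfold hy at this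
        exact_mod_cast this
      have g2 : (∑ i, (v.1 i : ℤ) * av q' i) + v.2 = (∑ i, (v'.1 i : ℤ) * av q' i) + v'.2 := by
        have := e2
        unfold hy at this
        exact_mod_cast this
      have g3 : ∑ i, ((av q i : ℤ) - av q' i) ^ 2 =
          ∑ i, ((v'.1 i : ℤ) * av q i - (v.1 i : ℤ) * av q i - ((v'.1 i : ℤ) * av q' i -
            (v.1 i : ℤ) * av q' i)) := by
        apply Finset.sum_congr rfl
        intro i _
        have h : (av q i : ℤ) + v.1 i = av q' i + v'.1 i := by exact_mod_cast e3 i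
        have h' : (av q i : ℤ) - av q' i = v'.1 i - v.1 i := by linarith
        rw [pow_two]
        nth_rewrite 1 [h']
        ring
      rw [g3]
      simp only [Finset.sum_sub_distrib]
      linarith
    have e5 : av q = av q' := by
      rw [Finset.sum_eq_zero_iff_of_nonneg (fun i _ => sq_nonneg _)] at e4
      funext i
      have := e4 i (Finset.mem_univ i)
      have := (pow_eq_zero_iff two_ne_zero).1 this
      omega
    have e6 : v.1 = v'.1 := by
      funext i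
      have := e3 i
      rw [e5] at this
      omega
    have e7 : v = v' := by
      apply Prod.ext e6
      unfold hy at e1
      rw [e6] at e1
      omega
    subst e7
    have e8 : q = q' := by
      rw [(mem_Hyp' hqv).2, (mem_Hyp' hq'v).2, e5]
    subst e8
    rfl

/-- the lower bound in the big space -/
theorem gen_count (n : ℕ) {N : ℕ} (hN : 1 ≤ N) (S : Finset (Ix n → ℝ))
    (hS : IsNet (GPts n N) (1 / ((2 * ((n : ℝ) + 1)) * (N : ℝ) ^ 2)) S) :
    N ^ (n + 2) ≤ 2 ^ (n + 1) * S.card := by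
  have hNpos : (0 : ℝ) < N := by exact_mod_cast hN
  have := count (GPts n N) (Hs n N) (Hyp N) (fun v hv => Hyp_sub hv) (N ^ n)
    (fun v _ => Hyp_card N v) ((2 * N) ^ n) (UG n N) (fun s v _ G hG hs => UG_meet hG hs)
    (UG_sum n N) (1 / ((2 * ((n : ℝ) + 1)) * (N : ℝ) ^ 2)) (by
      have h1 : ((GPts n N).card : ℝ) ≤ (N : ℝ) ^ n * (((n : ℝ) + 1) * (N : ℝ) ^ 2) := by
        exact_mod_cast GPts_card n N
      have h2 : 1 / ((2 * ((n : ℝ) + 1)) * (N : ℝ) ^ 2) * ((GPts n N).card : ℝ) ≤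
          1 / ((2 * ((n : ℝ) + 1)) * (N : ℝ) ^ 2) *
            ((N : ℝ) ^ n * (((n : ℝ) + 1) * (N : ℝ) ^ 2)) :=
        mul_le_mul_of_nonneg_left h1 (by positivity)
      have h3 : 1 / ((2 * ((n : ℝ) + 1)) * (N : ℝ) ^ 2) *
            ((N : ℝ) ^ n * (((n : ℝ) + 1) * (N : ℝ) ^ 2)) = (N : ℝ) ^ n / 2 := by
        have : (n : ℝ) + 1 ≠ 0 := by positivity
        field_simp
      push_cast
      linarith) S hS
  rw [Hs_card] at this
  have h2 : N ^ n * N ^ (n + 2) ≤ N ^ n * (2 ^ (n + 1) * S.card) := by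
    calc N ^ n * N ^ (n + 2) = N ^ n * N ^ 2 * N ^ n := by ring
      _ ≤ 2 * (S.card * (2 * N) ^ n) := this
      _ = N ^ n * (2 ^ (n + 1) * S.card) := by rw [mul_pow]; ring
  exact Nat.le_of_mul_le_mul_left h2 (Nat.pow_pos hN)

end

end MPa20b56.Lb
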