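import Pool.Agent.Lib_MP_a20b56_lb.Space
import Pool.Agent.Lib_MP_a20b56_lb.Gen

/-!
# Power lower bounds for weak epsilon-nets (MP_a20b56_co): conclusion
-/

namespace MPa20b56.Lb

open scoped BigOperators Classical

noncomputable section

theorem ext_left {ι : Type} [Fintype ι] {d : ℕ} (e : ι ↪ Fin d) (x : ι → ℝ) :
    LinearMap.funLeft ℝ ℝ e (Function.ExtendByZero.linearMap ℝ e x) = x := by
  funext i
  rw [LinearMap.funLeft_apply]
  exact e.injective.extend_apply x 0 i

theorem ext_inj {ι : Type} [Fintype ι] {d : ℕ} (e : ι ↪ Fin d) :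
    Function.Injective (Function.ExtendByZero.linearMap ℝ e : (ι → ℝ) →ₗ[ℝ] (Fin d → ℝ)) := by
  intro x y hxy
  rw [← ext_left e x, hxy, ext_left]

/-- the embedding of the coordinates -/
def emb {ι : Type} [Fintype ι] {d : ℕ} (e : ι ↪ Fin d) : (ι → ℝ) ↪ (Fin d → ℝ) :=
  ⟨(Function.ExtendByZero.linearMap ℝ e : (ι → ℝ) →ₗ[ℝ] (Fin d → ℝ)), ext_inj e⟩

/-- transfer to coordinates -/
theorem net_pull {ι : Type} [Fintype ι] {d : ℕ} (e : ι ↪ Fin d) (P : Finset (ι → ℝ)) (ε : ℝ)
    (S : Finset (Fin d → ℝ)) (hS : IsPointNet d (P.map (emb e)) ε S) :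
    ∃ S' : Finset (ι → ℝ), S'.card ≤ S.card ∧ IsNet P ε S' :=
  transfer (Function.ExtendByZero.linearMap ℝ e) (LinearMap.funLeft ℝ ℝ e) (ext_left e)
    (ext_inj e) P ε S hS

/-- Three-space and above: every admissible exponent of ordinary weak nets is at least `3/2`. -/
theorem three_halves_le {d : ℕ} (hd : 3 ≤ d) {β : ℝ} (hβ : PointAdmissible d β) :
    3 / 2 ≤ β := by
  have := exponent_ge (m := 3) (b := 4) (c := 1 / 4) hβ (by norm_num) (by norm_num) (by
    intro N hN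
    refine ⟨(Pts N).map (emb (Fin.castLEEmb hd)), ?_, ?_⟩
    · rw [Finset.map_nonempty]
      refine ⟨nu N 0 0, Finset.mem_image.2 ⟨(0, 0), ?_, rfl⟩⟩
      rw [Finset.mem_product, Finset.mem_range, Finset.mem_range]
      exact ⟨hN, by positivity⟩
    · intro S hS
      obtain ⟨S', hc, hS'⟩ := net_pull (Fin.castLEEmb hd) (Pts N) _ S hS
      have h1 := space_count hN _ hS'
      have h2 : N ^ 3 ≤ 4 * S.card := h1.trans (Nat.mul_le_mul_left 4 hc)
      have h3 : (N : ℝ) ^ 3 ≤ 4 * (S.card : ℝ) := by exact_mod_cast h2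
      linarith)
  norm_num at this
  linarith

theorem card_Ix (n : ℕ) : 2 * Fintype.card (Ix n) = n * (n + 5) + 2 := by
  simp only [Ix, Fintype.card_sum, Fintype.card_fin, Fintype.card_unit, Sym2.card]
  have h := Nat.choose_two_right (n + 1)
  have h2 : 2 * (n + 1).choose 2 = (n + 1) * n := by
    rw [h, Nat.add_sub_cancel]
    exact Nat.mul_div_cancel' (Nat.even_mul_pred_self (n + 1)).two_dvd
  ring_nf at h2 ⊢
  omega

/-- General dimension: for `n (n + 5) + 2 ≤ 2 d` every admissible exponent of ordinary weak nets in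
`ℝ^d` is at least `(n + 2) / 2`. -/
theorem general_le {n d : ℕ} (hd : n * (n + 5) + 2 ≤ 2 * d) {β : ℝ}
    (hβ : PointAdmissible d β) : ((n : ℝ) + 2) / 2 ≤ β := by
  have hcard : Fintype.card (Ix n) ≤ Fintype.card (Fin d) := by
    have := card_Ix n
    rw [Fintype.card_fin]
    omega
  obtain ⟨e⟩ := Function.Embedding.nonempty_of_card_le hcard
  have := exponent_ge (m := n + 2) (b := 2 * ((n : ℝ) + 1)) (c := 1 / 2 ^ (n + 1)) hβ
    (by have : (0 : ℝ) ≤ n := Nat.cast_nonneg n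
        linarith) (by positivity) (by
    intro N hN
    refine ⟨(GPts n N).map (emb e), ?_, ?_⟩
    · rw [Finset.map_nonempty]
      refine ⟨gp (fun _ => 0) 0, Finset.mem_image.2 ⟨(fun _ => 0, 0), ?_, rfl⟩⟩
      rw [Finset.mem_product, mem_Bx, Finset.mem_range]
      exact ⟨fun _ => hN, by positivity⟩
    · intro S hS
      obtain ⟨S', hc, hS'⟩ := net_pull e (GPts n N) _ S hS
      have h1 := gen_count n hN _ hS'
      have h2 : N ^ (n + 2) ≤ 2 ^ (n + 1) * S.card := h1.trans (Nat.mul_le_mul_left _ hc)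
      have h3 : (N : ℝ) ^ (n + 2) ≤ 2 ^ (n + 1) * (S.card : ℝ) := by exact_mod_cast h2
      rw [div_mul_eq_mul_div, one_mul, div_le_iff₀ (by positivity)]
      linarith)
  push_cast at this
  exact this

theorem beta_le_alpha' {d : ℕ} (hd : 1 ≤ d) : beta d ≤ alpha d := by
  refine le_sInf ?_
  rintro a ⟨α, hα, rfl⟩
  exact sInf_le ⟨α, Pl.pointAdmissible_of_admissible hd hα, rfl⟩

theorem le_beta {d : ℕ} {c : ℝ} (h : ∀ β : ℝ, PointAdmissible d β → c ≤ β) :
    (c : EReal) ≤ beta d := by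
  refine le_sInf ?_
  rintro a ⟨β, hβ, rfl⟩
  exact EReal.coe_le_coe_iff.2 (h β hβ)

end

end MPa20b56.Lb
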