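import Pool.Agent.Lib_MP_a20b56_lb.Core

/-!
# Power lower bounds for weak epsilon-nets (MP_a20b56_co): three-space

The points are `(a, y + δ y², a²)` for integers `a < N`, `y < 2N²`, with a tiny `δ`.  The integer
lines `y = X a + Z` give planes; every point of space which is not on the paraboloid cylinder is in
at most two of the hulls.
-/

namespace MPa20b56.Lb

open scoped BigOperators Classical

noncomputable section

/-- the tiny parameter -/
def del (N : ℕ) : ℝ := 1 / (20 * (N : ℝ) ^ 5)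

/-- the point of the surface -/
def nu (N : ℕ) (a y : ℕ) : Fin 3 → ℝ := ![(a : ℝ), (y : ℝ) + del N * (y : ℝ) ^ 2, (a : ℝ) ^ 2]

/-- the points of the line `y = X a + Z` -/
def Lin (N : ℕ) (v : ℕ × ℕ) : Finset (Fin 3 → ℝ) :=
  (Finset.range N).image fun a => nu N a (v.1 * a + v.2)

/-- all points -/
def Pts (N : ℕ) : Finset (Fin 3 → ℝ) :=
  (Finset.range N ×ˢ Finset.range (2 * N ^ 2)).image fun p => nu N p.1 p.2

/-- all lines -/
def Lns (N : ℕ) : Finset (ℕ × ℕ) := Finset.range N ×ˢ Finset.range (N ^ 2)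

theorem nu_zero (N a y : ℕ) : nu N a y 0 = (a : ℝ) := rfl
theorem nu_one (N a y : ℕ) : nu N a y 1 = (y : ℝ) + del N * (y : ℝ) ^ 2 := rfl
theorem nu_two (N a y : ℕ) : nu N a y 2 = (a : ℝ) ^ 2 := rfl

theorem Lin_sub {N : ℕ} {v : ℕ × ℕ} (hv : v ∈ Lns N) : Lin N v ⊆ Pts N := by
  intro q hq
  obtain ⟨a, ha, rfl⟩ := Finset.mem_image.1 hq
  rw [Lns, Finset.mem_product, Finset.mem_range, Finset.mem_range] at hv
  rw [Finset.mem_range] at ha
  refine Finset.mem_image.2 ⟨(a, v.1 * a + v.2), ?_, rfl⟩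
  rw [Finset.mem_product, Finset.mem_range, Finset.mem_range]
  refine ⟨ha, ?_⟩
  have : v.1 * a ≤ N * N := Nat.mul_le_mul hv.1.le ha.le
  have h2 := hv.2
  simp only
  nlinarith

theorem Lin_card (N : ℕ) (v : ℕ × ℕ) : (Lin N v).card = N := by
  rw [Lin, Finset.card_image_of_injective, Finset.card_range]
  intro a b hab
  have := congrFun hab 0
  simp only [nu_zero] at this
  exact_mod_cast this

theorem Pts_card (N : ℕ) : (Pts N).card ≤ 2 * N ^ 3 := by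
  refine Finset.card_image_le.trans ?_
  rw [Finset.card_product, Finset.card_range, Finset.card_range]
  apply le_of_eq; ring

theorem Lns_card (N : ℕ) : (Lns N).card = N ^ 3 := by
  rw [Lns, Finset.card_product, Finset.card_range, Finset.card_range]
  ring

/-- what is known about a point of the hull of a line -/
theorem hull_line {N : ℕ} {v : ℕ × ℕ} {s : Fin 3 → ℝ}
    (hs : s ∈ convexHull ℝ (Lin N v : Set (Fin 3 → ℝ))) :
    s 1 = (v.2 : ℝ) + del N * (v.2 : ℝ) ^ 2 + ((v.1 : ℝ) + 2 * del N * v.1 * v.2) * s 0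
      + del N * (v.1 : ℝ) ^ 2 * s 2 ∧ 0 ≤ s 0 ∧ s 0 ≤ N ∧ s 0 ^ 2 ≤ s 2 ∧ s 2 ≤ (N : ℝ) ^ 2 := by
  have hC : Convex ℝ {s : Fin 3 → ℝ | s 1 = (v.2 : ℝ) + del N * (v.2 : ℝ) ^ 2 +
      ((v.1 : ℝ) + 2 * del N * v.1 * v.2) * s 0 + del N * (v.1 : ℝ) ^ 2 * s 2 ∧
      0 ≤ s 0 ∧ s 0 ≤ N ∧ s 0 ^ 2 ≤ s 2 ∧ s 2 ≤ (N : ℝ) ^ 2} := by
    rintro s ⟨h1, h2, h3, h4, h5⟩ t ⟨g1, g2, g3, g4, g5⟩ a b ha hb hab
    have hb' : b = 1 - a := by linarith
    simp only [Set.mem_ofPred_eq, Pi.add_apply, Pi.smul_apply, smul_eq_mul]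
    refine ⟨?_, by positivity, ?_, ?_, ?_⟩
    · rw [h1, g1, hb']; ring
    · nlinarith
    · nlinarith [mul_nonneg (mul_nonneg ha hb) (sq_nonneg (s 0 - t 0)), mul_le_mul_of_nonneg_left h4 ha,
        mul_le_mul_of_nonneg_left g4 hb]
    · nlinarith [mul_le_mul_of_nonneg_left h5 ha, mul_le_mul_of_nonneg_left g5 hb]
  refine convexHull_min ?_ hC hs
  intro q hq
  obtain ⟨a, ha, rfl⟩ := Finset.mem_image.1 (Finset.mem_coe.1 hq)
  rw [Finset.mem_range] at ha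
  have ha' : (a : ℝ) ≤ N := by exact_mod_cast ha.le
  have ha0 : (0 : ℝ) ≤ a := Nat.cast_nonneg a
  simp only [Set.mem_ofPred_eq, nu_zero, nu_one, nu_two]
  refine ⟨by push_cast; ring, ha0, ha', le_refl _, ?_⟩
  nlinarith

/-- the algebra of three planes through a point -/
theorem three_algebra {δ ζ p q p' q' y X : ℝ} (hδ : δ ≠ 0) (hζ : 0 < ζ) (hp : p ≠ 0)
    (hp' : p' ≠ 0) (hne : p ≠ p') (hD : p * q' = p' * q)
    (e : q * (1 + δ * (2 * y + q)) + δ * ζ * p * (2 * X + p) = 0)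
    (e' : q' * (1 + δ * (2 * y + q')) + δ * ζ * p' * (2 * X + p') = 0) : False := by
  have h1 : δ * p' * ((q ^ 2 + ζ * p ^ 2) * (p' - p)) = 0 := by
    have h2 : p * q' = p' * q := hD
    -- `p² e' p - p p' e p` combination
    have h3 : p * (p * (q' * (1 + δ * (2 * y + q')) + δ * ζ * p' * (2 * X + p'))) -
        p * (p' * (q * (1 + δ * (2 * y + q)) + δ * ζ * p * (2 * X + p))) = 0 := by
      rw [e, e']; ring
    have h4 : p * (p * (q' * (1 + δ * (2 * y + q')) + δ * ζ * p' * (2 * X + p'))) -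
        p * (p' * (q * (1 + δ * (2 * y + q)) + δ * ζ * p * (2 * X + p))) =
        p * (p * q') * (1 + δ * 2 * y) + δ * (p * q') ^ 2 - p * (p' * q) * (1 + δ * 2 * y)
        - δ * p * p' * q ^ 2 + δ * ζ * p ^ 2 * p' * (p' - p) := by ring
    rw [h4, h2] at h3
    linear_combination h3
  have hpos : 0 < q ^ 2 + ζ * p ^ 2 := by positivity
  have h5 : p' - p ≠ 0 := sub_ne_zero.2 (Ne.symm hne)
  exact (mul_ne_zero (mul_ne_zero hδ hp') (mul_ne_zero hpos.ne' h5)) h1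

theorem del_pos {N : ℕ} (hN : 1 ≤ N) : 0 < del N := by
  have : (0 : ℝ) < N := by exact_mod_cast hN
  unfold del; positivity

/-- value of a line at `x` -/
def yv (v : ℕ × ℕ) (x : ℝ) : ℝ := (v.1 : ℝ) * x + v.2

theorem hull_yv {N : ℕ} {v : ℕ × ℕ} {s : Fin 3 → ℝ}
    (hs : s ∈ convexHull ℝ (Lin N v : Set (Fin 3 → ℝ))) :
    s 1 = yv v (s 0) + del N * (yv v (s 0) ^ 2 + (v.1 : ℝ) ^ 2 * (s 2 - s 0 ^ 2)) := by
  rw [(hull_line hs).1]
  unfold yv
  ring

theorem yv_bd {N : ℕ} {v : ℕ × ℕ} (hv : v ∈ Lns N) {x : ℝ} (h0 : 0 ≤ x) (h1 : x ≤ N) :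
    0 ≤ yv v x ∧ yv v x ≤ 2 * (N : ℝ) ^ 2 := by
  rw [Lns, Finset.mem_product, Finset.mem_range, Finset.mem_range] at hv
  have h2 : (v.1 : ℝ) ≤ N := by exact_mod_cast hv.1.le
  have h3 : (v.2 : ℝ) ≤ (N : ℝ) ^ 2 := by exact_mod_cast hv.2.le
  have h4 : (0 : ℝ) ≤ v.1 := Nat.cast_nonneg _
  have h5 : (0 : ℝ) ≤ v.2 := Nat.cast_nonneg _
  unfold yv
  constructor
  · positivity
  · nlinarith

/-- two lines whose hulls share a point have nearly the same value there -/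
theorem yv_close {N : ℕ} (hN : 1 ≤ N) {v w : ℕ × ℕ} (hv : v ∈ Lns N) (hw : w ∈ Lns N)
    {s : Fin 3 → ℝ} (h1 : s ∈ convexHull ℝ (Lin N v : Set (Fin 3 → ℝ)))
    (h2 : s ∈ convexHull ℝ (Lin N w : Set (Fin 3 → ℝ))) :
    |yv w (s 0) - yv v (s 0)| ≤ 5 * del N * (N : ℝ) ^ 4 := by
  have e1 := hull_yv h1
  have e2 := hull_yv h2
  obtain ⟨-, a0, a1, a2, a3⟩ := hull_line h1
  have b1 := yv_bd hv a0 a1
  have b2 := yv_bd hw a0 a1
  have hδ := del_pos hN
  rw [Lns, Finset.mem_product, Finset.mem_range, Finset.mem_range] at hv hw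
  have hvX : (v.1 : ℝ) ≤ N := by exact_mod_cast hv.1.le
  have hwX : (w.1 : ℝ) ≤ N := by exact_mod_cast hw.1.le
  have hvX0 : (0 : ℝ) ≤ v.1 := Nat.cast_nonneg _
  have hwX0 : (0 : ℝ) ≤ w.1 := Nat.cast_nonneg _
  have hz0 : 0 ≤ s 2 - s 0 ^ 2 := by linarith
  have hz1 : s 2 - s 0 ^ 2 ≤ (N : ℝ) ^ 2 := by nlinarith [sq_nonneg (s 0)]
  have key : ∀ (y X : ℝ), 0 ≤ y → y ≤ 2 * (N : ℝ) ^ 2 → 0 ≤ X → X ≤ N →
      0 ≤ y ^ 2 + X ^ 2 * (s 2 - s 0 ^ 2) ∧
      y ^ 2 + X ^ 2 * (s 2 - s 0 ^ 2) ≤ 5 * (N : ℝ) ^ 4 := by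
    intro y X hy0 hy1 hX0 hX1
    refine ⟨by positivity, ?_⟩
    have g1 : y ^ 2 ≤ (2 * (N : ℝ) ^ 2) ^ 2 := pow_le_pow_left₀ hy0 hy1 2
    have g2 : X ^ 2 ≤ (N : ℝ) ^ 2 := pow_le_pow_left₀ hX0 hX1 2
    have g3 : X ^ 2 * (s 2 - s 0 ^ 2) ≤ (N : ℝ) ^ 2 * (N : ℝ) ^ 2 :=
      mul_le_mul g2 hz1 hz0 (by positivity)
    nlinarith
  have k1 := key _ _ b1.1 b1.2 hvX0 hvX
  have k2 := key _ _ b2.1 b2.2 hwX0 hwX
  rw [abs_le]
  constructor
  · nlinarith [mul_nonneg hδ.le k1.1, mul_nonneg hδ.le k2.1, mul_le_mul_of_nonneg_left k1.2 hδ.le,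
      mul_le_mul_of_nonneg_left k2.2 hδ.le]
  · nlinarith [mul_nonneg hδ.le k1.1, mul_nonneg hδ.le k2.1, mul_le_mul_of_nonneg_left k1.2 hδ.le,
      mul_le_mul_of_nonneg_left k2.2 hδ.le]

/-- lines with the same slope whose hulls share a point are equal -/
theorem same_slope {N : ℕ} (hN : 1 ≤ N) {v w : ℕ × ℕ} (hv : v ∈ Lns N) (hw : w ∈ Lns N)
    {s : Fin 3 → ℝ} (h1 : s ∈ convexHull ℝ (Lin N v : Set (Fin 3 → ℝ)))
    (h2 : s ∈ convexHull ℝ (Lin N w : Set (Fin 3 → ℝ))) (hX : v.1 = w.1) : v = w := by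
  have hc := yv_close hN hv hw h1 h2
  have hN1 : (1 : ℝ) ≤ N := by exact_mod_cast hN
  have hlt : 5 * del N * (N : ℝ) ^ 4 < 1 := by
    unfold del
    rw [show 5 * (1 / (20 * (N : ℝ) ^ 5)) * (N : ℝ) ^ 4 = 1 / (4 * N) by field_simp; ring]
    rw [div_lt_one (by positivity)]
    linarith
  have h3 : |((w.2 : ℤ) - (v.2 : ℤ) : ℤ)| < 1 := by
    have : |((w.2 : ℝ) - (v.2 : ℝ))| < 1 := by
      refine lt_of_le_of_lt ?_ hlt
      refine le_trans (le_of_eq ?_) hc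
      unfold yv
      rw [hX]
      congr 1
      ring
    exact_mod_cast this
  rw [Int.abs_lt_one_iff] at h3
  ext
  · exact hX
  · omega

/-- at most two lines have a hull containing a given point off the cylinder -/
theorem no_three {N : ℕ} (hN : 1 ≤ N) {u v w : ℕ × ℕ} (hu : u ∈ Lns N) (hv : v ∈ Lns N)
    (hw : w ∈ Lns N) {s : Fin 3 → ℝ} (h0 : s ∈ convexHull ℝ (Lin N u : Set (Fin 3 → ℝ)))
    (h1 : s ∈ convexHull ℝ (Lin N v : Set (Fin 3 → ℝ)))
    (h2 : s ∈ convexHull ℝ (Lin N w : Set (Fin 3 → ℝ))) (hs : s 2 ≠ s 0 ^ 2)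
    (huv : u ≠ v) (huw : u ≠ w) (hvw : v ≠ w) : False := by
  have hδ := del_pos hN
  have hN1 : (1 : ℝ) ≤ N := by exact_mod_cast hN
  have hζ : 0 < s 2 - s 0 ^ 2 := by
    have := (hull_line h0).2.2.2.1
    exact sub_pos.2 (lt_of_le_of_ne this (Ne.symm hs))
  have e0 := hull_yv h0
  have e1 := hull_yv h1
  have e2 := hull_yv h2
  have c1 := yv_close hN hu hv h0 h1
  have c2 := yv_close hN hu hw h0 h2
  have n1 : (v.1 : ℝ) - u.1 ≠ 0 := by
    intro h
    exact huv (same_slope hN hu hv h0 h1 (by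
      have : (v.1 : ℝ) = u.1 := by linarith
      exact_mod_cast this.symm))
  have n2 : (w.1 : ℝ) - u.1 ≠ 0 := by
    intro h
    exact huw (same_slope hN hu hw h0 h2 (by
      have : (w.1 : ℝ) = u.1 := by linarith
      exact_mod_cast this.symm))
  have n3 : (v.1 : ℝ) - u.1 ≠ (w.1 : ℝ) - u.1 := by
    intro h
    exact hvw (same_slope hN hv hw h1 h2 (by
      have : (v.1 : ℝ) = w.1 := by linarith
      exact_mod_cast this))
  -- the determinant is an integer and tiny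
  have hD : ((v.1 : ℝ) - u.1) * (yv w (s 0) - yv u (s 0)) =
      ((w.1 : ℝ) - u.1) * (yv v (s 0) - yv u (s 0)) := by
    have hint : ((v.1 : ℝ) - u.1) * (yv w (s 0) - yv u (s 0)) -
        ((w.1 : ℝ) - u.1) * (yv v (s 0) - yv u (s 0)) =
        ((((v.1 : ℤ) - u.1) * ((w.2 : ℤ) - u.2) - ((w.1 : ℤ) - u.1) * ((v.2 : ℤ) - u.2) : ℤ) : ℝ) := by
      unfold yv
      push_cast
      ring
    have hX : ∀ a b : ℕ × ℕ, a ∈ Lns N → b ∈ Lns N → |(a.1 : ℝ) - b.1| ≤ N := by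
      intro a b ha hb
      rw [Lns, Finset.mem_product, Finset.mem_range, Finset.mem_range] at ha hb
      have g1 : (a.1 : ℝ) ≤ N := by exact_mod_cast ha.1.le
      have g2 : (b.1 : ℝ) ≤ N := by exact_mod_cast hb.1.le
      have g3 : (0 : ℝ) ≤ a.1 := Nat.cast_nonneg _
      have g4 : (0 : ℝ) ≤ b.1 := Nat.cast_nonneg _
      rw [abs_le]
      constructor <;> linarith
    have hlt : |((v.1 : ℝ) - u.1) * (yv w (s 0) - yv u (s 0)) -
        ((w.1 : ℝ) - u.1) * (yv v (s 0) - yv u (s 0))| < 1 := by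
      refine lt_of_le_of_lt (abs_sub _ _) ?_
      rw [abs_mul, abs_mul]
      have g1 := mul_le_mul (hX v u hv hu) c2 (abs_nonneg _) (by positivity)
      have g2 := mul_le_mul (hX w u hw hu) c1 (abs_nonneg _) (by positivity)
      have g3 : (N : ℝ) * (5 * del N * (N : ℝ) ^ 4) = 1 / 4 := by
        unfold del
        field_simp
        norm_num
      rw [g3] at g1 g2
      linarith
    rw [hint] at hlt
    have hz : (((v.1 : ℤ) - u.1) * ((w.2 : ℤ) - u.2) - ((w.1 : ℤ) - u.1) * ((v.2 : ℤ) - u.2) : ℤ)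
        = 0 := by
      rw [← Int.abs_lt_one_iff]
      exact_mod_cast hlt
    rw [hz] at hint
    push_cast at hint
    linarith
  refine three_algebra (δ := del N) (ζ := s 2 - s 0 ^ 2) (p := (v.1 : ℝ) - u.1)
    (q := yv v (s 0) - yv u (s 0)) (p' := (w.1 : ℝ) - u.1) (q' := yv w (s 0) - yv u (s 0))
    (y := yv u (s 0)) (X := u.1) hδ.ne' hζ n1 n2 n3 hD ?_ ?_
  · linear_combination e0 - e1
  · linear_combination e0 - e2

/-- the sets which a good part of a line has to meet -/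
def UU (N : ℕ) (s : Fin 3 → ℝ) (v : ℕ × ℕ) : Finset (Fin 3 → ℝ) :=
  if s 2 = s 0 ^ 2 then (Lin N v).filter fun q => q 0 = s 0 else Lin N v

theorem UU_meet {N : ℕ} {s : Fin 3 → ℝ} {v : ℕ × ℕ} {G : Finset (Fin 3 → ℝ)}
    (hG : G ⊆ Lin N v) (hs : s ∈ convexHull ℝ (G : Set (Fin 3 → ℝ))) :
    ∃ q ∈ G, q ∈ UU N s v := by
  unfold UU
  split_ifs with h
  · rw [Finset.mem_convexHull'] at hs
    obtain ⟨w, hw0, hw1, hws⟩ := hs
    have hfun : ∀ i, ∑ q ∈ G, w q * q i = s i := by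
      intro i
      have := congrFun hws i
      rw [Finset.sum_apply] at this
      simpa only [Pi.smul_apply, smul_eq_mul] using this
    -- the sum of the nonnegative numbers `w q (q 0 - s 0)²` is zero
    have hq2 : ∀ q ∈ G, q 2 = q 0 ^ 2 := by
      intro q hq
      obtain ⟨a, _, rfl⟩ := Finset.mem_image.1 (hG hq)
      rfl
    have hsum : ∑ q ∈ G, w q * (q 0 - s 0) ^ 2 = 0 := by
      have : ∀ q ∈ G, w q * (q 0 - s 0) ^ 2 = w q * q 2 - 2 * s 0 * (w q * q 0) +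
          s 0 ^ 2 * w q := by
        intro q hq
        rw [hq2 q hq]; ring
      rw [Finset.sum_congr rfl this, Finset.sum_add_distrib, Finset.sum_sub_distrib,
        ← Finset.mul_sum, ← Finset.mul_sum, hfun, hfun, hw1, h]
      ring
    rw [Finset.sum_eq_zero_iff_of_nonneg (fun q hq => mul_nonneg (hw0 q hq) (sq_nonneg _))] at hsum
    obtain ⟨q, hq, hwq⟩ : ∃ q ∈ G, w q ≠ 0 := by
      by_contra hne
      push Not at hne
      rw [Finset.sum_eq_zero hne] at hw1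
      exact zero_ne_one hw1
    refine ⟨q, hq, Finset.mem_filter.2 ⟨hG hq, ?_⟩⟩
    have := hsum q hq
    rcases mul_eq_zero.1 this with h3 | h3
    · exact absurd h3 hwq
    · exact sub_eq_zero.1 (pow_eq_zero_iff (two_ne_zero)|>.1 h3)
  · have hne : (G : Set (Fin 3 → ℝ)).Nonempty := by
      rw [← convexHull_nonempty_iff (𝕜 := ℝ)]
      exact ⟨s, hs⟩
    obtain ⟨q, hq⟩ := hne
    exact ⟨q, hq, hG hq⟩

theorem UU_sum {N : ℕ} (hN : 1 ≤ N) (s : Fin 3 → ℝ) :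
    (∑ v ∈ (Lns N).filter (fun v => s ∈ convexHull ℝ (Lin N v : Set (Fin 3 → ℝ))),
      (UU N s v).card) ≤ 2 * N := by
  by_cases h : s 2 = s 0 ^ 2
  · -- at most one line for every slope, one point on every line
    have hcard : ((Lns N).filter
        (fun v => s ∈ convexHull ℝ (Lin N v : Set (Fin 3 → ℝ)))).card ≤ N := by
      have hinj : Set.InjOn (fun v : ℕ × ℕ => v.1) ((Lns N).filter
          (fun v => s ∈ convexHull ℝ (Lin N v : Set (Fin 3 → ℝ))) : Set (ℕ × ℕ)) := by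
        intro v hv w hw hvw
        rw [Finset.mem_coe, Finset.mem_filter] at hv hw
        exact same_slope hN hv.1 hw.1 hv.2 hw.2 hvw
      refine (Finset.card_le_card_of_injOn (t := Finset.range N)
        (fun v : ℕ × ℕ => v.1) ?_ hinj).trans (le_of_eq (Finset.card_range N))
      intro v hv
      rw [Finset.mem_coe, Finset.mem_filter, Lns, Finset.mem_product] at hv
      exact hv.1.1
    have hone : ∀ v ∈ (Lns N).filter (fun v => s ∈ convexHull ℝ (Lin N v : Set (Fin 3 → ℝ))),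
        (UU N s v).card ≤ 1 := by
      intro v _
      unfold UU
      rw [if_pos h, Finset.card_le_one]
      intro q hq q' hq'
      rw [Finset.mem_filter] at hq hq'
      obtain ⟨a, _, rfl⟩ := Finset.mem_image.1 hq.1
      obtain ⟨a', _, rfl⟩ := Finset.mem_image.1 hq'.1
      have : (a : ℝ) = a' := hq.2.trans hq'.2.symm
      have h2 : a = a' := by exact_mod_cast this
      rw [h2]
    calc _ ≤ ∑ _v ∈ (Lns N).filter (fun v => s ∈ convexHull ℝ (Lin N v : Set (Fin 3 → ℝ))), 1 :=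
          Finset.sum_le_sum hone
      _ ≤ 2 * N := by rw [Finset.sum_const, smul_eq_mul, mul_one]; omega
  · have hcard : ((Lns N).filter
        (fun v => s ∈ convexHull ℝ (Lin N v : Set (Fin 3 → ℝ)))).card ≤ 2 := by
      by_contra hlt
      push Not at hlt
      obtain ⟨u, v, w, hu, hv, hw, huv, huw, hvw⟩ := Finset.two_lt_card_iff.1 hlt
      rw [Finset.mem_filter] at hu hv hw
      exact no_three hN hu.1 hv.1 hw.1 hu.2 hv.2 hw.2 h huv huw hvw
    calc _ = ∑ _v ∈ (Lns N).filter (fun v => s ∈ convexHull ℝ (Lin N v : Set (Fin 3 → ℝ))), N := by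
          refine Finset.sum_congr rfl fun v _ => ?_
          unfold UU
          rw [if_neg h, Lin_card]
      _ ≤ 2 * N := by rw [Finset.sum_const, smul_eq_mul]; exact Nat.mul_le_mul_right N hcard

/-- the lower bound for three-space -/
theorem space_count {N : ℕ} (hN : 1 ≤ N) (S : Finset (Fin 3 → ℝ))
    (hS : IsNet (Pts N) (1 / (4 * (N : ℝ) ^ 2)) S) : N ^ 3 ≤ 4 * S.card := by
  have hNpos : (0 : ℝ) < N := by exact_mod_cast hN
  have := count (Pts N) (Lns N) (Lin N) (fun v hv => Lin_sub hv) N (fun v _ => Lin_card N v)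
    (2 * N) (UU N) (fun s v _ G hG hs => UU_meet hG hs) (UU_sum hN) (1 / (4 * (N : ℝ) ^ 2)) (by
      have h1 : ((Pts N).card : ℝ) ≤ 2 * (N : ℝ) ^ 3 := by exact_mod_cast Pts_card N
      have h2 : 1 / (4 * (N : ℝ) ^ 2) * ((Pts N).card : ℝ) ≤
          1 / (4 * (N : ℝ) ^ 2) * (2 * (N : ℝ) ^ 3) :=
        mul_le_mul_of_nonneg_left h1 (by positivity)
      have h3 : 1 / (4 * (N : ℝ) ^ 2) * (2 * (N : ℝ) ^ 3) = N / 2 := by
        field_simp; ring
      linarith) S hS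
  rw [Lns_card] at this
  have h2 : N * N ^ 3 ≤ N * (4 * S.card) := by nlinarith
  exact Nat.le_of_mul_le_mul_left h2 hN

end

end MPa20b56.Lb
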